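import Pool.Agent.W462.PL.COS
import Pool.Agent.W347.PL.TTC

set_option autoImplicit false

namespace Pool.Agent.W462.PL

open Finset
open Pool.Agent.H442R2
open Pool.Agent.H442R2.KF
open Pool.Agent.W23.PL
open Pool.Agent.H442R2.BX.TaskNC (Wt_pos Wt_le_one summable_ite card_roughs)

/-- shifting the class modulo `q` -/
theorem COS' (hCOU : St_COU) (hRC : BX.St_RC) (hGS : BX.St_GS) :
    Pool.Agent.W347.PL.St_COS' := by
  intro θ δ hθ hθ1 hδ
  obtain ⟨ε₁, η₁, C₁, hε₁, hη₁, hC₁, hcou⟩ := hCOU θ δ hθ hθ1 hδ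
  set η : ℝ := min η₁ (min (1 - θ) (3 / 4)) with hη
  have hη0 : 0 < η := lt_min hη₁ (lt_min (by linarith) (by norm_num))
  have hη1 : η ≤ η₁ := min_le_left _ _
  have hη2 : η ≤ 1 - θ := (min_le_right _ _).trans (min_le_left _ _)
  have hη3 : η ≤ 3 / 4 := (min_le_right _ _).trans (min_le_right _ _)
  refine ⟨min ε₁ (1 / 4), η, lt_min hε₁ (by norm_num), hη0, ?_⟩
  intro ε hε
  obtain ⟨N₀, C0, hC0, hrc⟩ := hRC ε hε
  set K1 : ℝ := (3 * Real.pi * Real.exp Real.pi) * (4 * C0 ^ 2) * 20 with hK1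
  have hK10 : 0 < K1 := by have := Real.pi_pos; positivity
  refine ⟨C₁ + 4 * C0 + K1 + N₀ * N₀ * (5 * N₀ + 4), by positivity, ?_⟩
  intro N q D0 X hN hq hqo hqs hqN hXN hD0 hXD b a a' hb ha ha' haa c c' hc hc' hr hr' hFc
  have hN1 : 1 ≤ N := by omega
  have hNpos : (0 : ℝ) < N := by exact_mod_cast (by omega : 0 < N)
  have hN1r : (1 : ℝ) ≤ N := by exact_mod_cast hN1
  have hmono : ∀ {u v : ℝ}, u ≤ v → (N : ℝ) ^ u ≤ (N : ℝ) ^ v := fun h =>
    Real.rpow_le_rpow_of_exponent_le hN1r h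
  have hPpos : 0 < (N : ℝ) ^ (1 - η) := Real.rpow_pos_of_pos hNpos _
  have hXP : (X : ℝ) ≤ (N : ℝ) ^ (1 - η) := hXN.trans (hmono (by linarith))
  have hbq : |(b : ℝ)| ≤ (N : ℝ) ^ (1 / 4 : ℝ) :=
    hb.trans (hqN.trans (hmono (min_le_right _ _)))
  have hbP : |(b : ℝ)| ≤ (N : ℝ) ^ (1 - η) := hbq.trans (hmono (by linarith))
  have hbN : |(b : ℝ)| ≤ N := by
    refine hbq.trans ?_
    calc (N : ℝ) ^ (1 / 4 : ℝ) ≤ (N : ℝ) ^ (1 : ℝ) := hmono (by norm_num)
      _ = N := Real.rpow_one _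
  by_cases hsmall : N < N₀
  · -- small N
    have hNN : (N : ℝ) ≤ N₀ := by exact_mod_cast hsmall.le
    have h1 : ∀ d d' : ℕ, 1 ≤ d → 1 ≤ d' → |SEb N b a a' q d d' - N / (q * d * d')| ≤
        5 * (N : ℝ) + 4 := by
      intro d d' hd hd'
      have h2 : 0 ≤ SEb N b a a' q d d' := by
        unfold SEb
        refine tsum_nonneg fun n => ?_
        split_ifs
        · exact (Wt_pos N n).le
        · exact le_refl _
      have h3 : SEb N b a a' q d d' ≤ 4 * ((N : ℝ) + 1) := by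
        have g1 := (hGS N hN1).2 1 0 le_rfl
        simp only [Nat.cast_one, div_one] at g1
        refine le_trans ?_ g1
        unfold SEb
        refine Summable.tsum_le_tsum (fun n => ?_) (summable_ite N hN1 _) (summable_ite N hN1 _)
        rw [if_pos (one_dvd (n - 0))]
        split_ifs
        · exact le_refl _
        · exact (Wt_pos N n).le
      have h4 : 0 ≤ (N : ℝ) / (q * d * d') := by positivity
      have h5 : (N : ℝ) / (q * d * d') ≤ N := by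
        apply div_le_self hNpos.le
        have e1 : (1 : ℝ) ≤ q := by exact_mod_cast hq
        have e2 : (1 : ℝ) ≤ d := by exact_mod_cast hd
        have e3 : (1 : ℝ) ≤ d' := by exact_mod_cast hd'
        exact one_le_mul_of_one_le_of_one_le (one_le_mul_of_one_le_of_one_le e1 e2) e3
      rw [abs_le]; constructor <;> linarith
    have hXN' : (X : ℝ) ≤ N₀ := by
      refine hXN.trans ?_
      calc (N : ℝ) ^ θ ≤ (N : ℝ) ^ (1 : ℝ) := hmono (by linarith)
        _ = N := Real.rpow_one _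
        _ ≤ N₀ := hNN
    have hcard : ((Ioc D0 X).card : ℝ) ≤ X := by
      rw [Nat.card_Ioc]
      exact_mod_cast Nat.sub_le _ _
    have h2 : |∑ d ∈ Ioc D0 X, ∑ d' ∈ (Ioc D0 X).filter (fun d' => Nat.Coprime d d'), c d * c' d' *
        (SEb N b a a' q d d' - N / (q * d * d'))| ≤ N₀ * N₀ * (5 * N₀ + 4) := by
      calc _ ≤ ∑ d ∈ Ioc D0 X, ∑ d' ∈ Ioc D0 X, (5 * (N : ℝ) + 4) := by
            refine (abs_sum_le_sum_abs _ _).trans (sum_le_sum fun d hd => ?_)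
            refine (abs_sum_le_sum_abs _ _).trans ?_
            refine le_trans (sum_le_sum (g := fun _ => 5 * (N : ℝ) + 4) fun d' hd' => ?_)
              (sum_le_sum_of_subset_of_nonneg (filter_subset _ _) fun _ _ _ => by positivity)
            have hd1 : 1 ≤ d := by have := (mem_Ioc.1 hd).1; omega
            have hd1' : 1 ≤ d' := by have := (mem_Ioc.1 (mem_filter.1 hd').1).1; omega
            rw [abs_mul, abs_mul]
            calc |c d| * |c' d'| * |SEb N b a a' q d d' - N / (q * d * d')|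
                ≤ 1 * 1 * (5 * (N : ℝ) + 4) :=
                  mul_le_mul (mul_le_mul (hc.bd d) (hc'.bd d') (abs_nonneg _) zero_le_one)
                    (h1 d d' hd1 hd1') (abs_nonneg _) (by norm_num)
              _ = 5 * (N : ℝ) + 4 := by ring
        _ = ((Ioc D0 X).card : ℝ) * (((Ioc D0 X).card : ℝ) * (5 * (N : ℝ) + 4)) := by
            rw [sum_const, sum_const, nsmul_eq_mul, nsmul_eq_mul]
        _ ≤ (N₀ : ℝ) * ((N₀ : ℝ) * (5 * (N₀ : ℝ) + 4)) := by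
            have h3 := hcard.trans hXN'
            refine mul_le_mul h3 (mul_le_mul h3 (by linarith) (by positivity) (Nat.cast_nonneg _))
              (by positivity) (Nat.cast_nonneg _)
        _ = _ := by ring
    refine h2.trans ?_
    have h3 : (1 : ℝ) ≤ (N : ℝ) ^ (1 - η) := Real.one_le_rpow hN1r (by linarith)
    have h4 : (N₀ : ℝ) * N₀ * (5 * N₀ + 4) ≤ C₁ + 4 * C0 + K1 + N₀ * N₀ * (5 * N₀ + 4) := by
      linarith
    have h5 : 0 ≤ C₁ + 4 * C0 + K1 + (N₀ : ℝ) * N₀ * (5 * N₀ + 4) := by positivity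
    calc (N₀ : ℝ) * N₀ * (5 * N₀ + 4) ≤ (C₁ + 4 * C0 + K1 + N₀ * N₀ * (5 * N₀ + 4)) * 1 := by
          rw [mul_one]; exact h4
      _ ≤ _ := mul_le_mul_of_nonneg_left h3 h5
  push Not at hsmall
  have hhalf : (N : ℝ) ^ (1 / 4 : ℝ) ≤ (N : ℝ) ^ (1 / 2 : ℝ) := hmono (by norm_num)
  have hA : |((a - b : ℤ) : ℝ)| ≤ N := by
    push_cast
    have := abs_sub (a : ℝ) (b : ℝ)
    linarith
  have hA' : |((a' - b : ℤ) : ℝ)| ≤ N := by
    push_cast
    have := abs_sub (a' : ℝ) (b : ℝ)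
    linarith
  have hAA : a - b ≠ a' - b := fun h => haa (by linarith)
  have h1 := hcou N q D0 X hN hq hqo hqs (hqN.trans (hmono (min_le_left _ _))) hXN hD0
    (hXD.trans (mul_le_mul_of_nonneg_right (hmono (min_le_left _ _)) (Nat.cast_nonneg _)))
    (a - b) (a' - b) hA hA' hAA c c' hc hc' hFc
  have h2 := diff_bound (D0 := D0) (q := q) hN1 hr hr' b a a' hbN haa hA hA' hC0
    (fun a n h h' => hrc N X hsmall a n h h') hGS
  rw [← hK1] at h2
  have e1 : ∑ d ∈ Ioc D0 X, ∑ d' ∈ (Ioc D0 X).filter (fun d' => Nat.Coprime d d'), c d * c' d' *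
      (SEb N b a a' q d d' - N / (q * d * d')) =
      ∑ d ∈ Ioc D0 X, ∑ d' ∈ (Ioc D0 X).filter (fun d' => Nat.Coprime d d'), c d * c' d' *
        (SEb N b a a' q d d' - BX.SE N (a - b) (a' - b) q d d') +
      ∑ d ∈ Ioc D0 X, ∑ d' ∈ (Ioc D0 X).filter (fun d' => Nat.Coprime d d'), c d * c' d' *
        (BX.SE N (a - b) (a' - b) q d d' - N / (q * d * d')) := by
    rw [← sum_add_distrib]
    refine sum_congr rfl fun d _ => ?_
    rw [← sum_add_distrib]
    refine sum_congr rfl fun d' _ => ?_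
    ring
  rw [e1]
  refine (abs_add_le _ _).trans ?_
  have h3 : (N : ℝ) ^ (1 - η₁) ≤ (N : ℝ) ^ (1 - η) := hmono (by linarith)
  have h4 : 4 * C0 * X ≤ 4 * C0 * (N : ℝ) ^ (1 - η) :=
    mul_le_mul_of_nonneg_left hXP (by positivity)
  have h5 : K1 * |(b : ℝ)| ≤ K1 * (N : ℝ) ^ (1 - η) := mul_le_mul_of_nonneg_left hbP hK10.le
  have h6 : C₁ * (N : ℝ) ^ (1 - η₁) ≤ C₁ * (N : ℝ) ^ (1 - η) :=
    mul_le_mul_of_nonneg_left h3 hC₁.le
  have h7 : 0 ≤ (N₀ : ℝ) * N₀ * (5 * N₀ + 4) * (N : ℝ) ^ (1 - η) := by positivity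
  have e2 : (C₁ + 4 * C0 + K1 + N₀ * N₀ * (5 * N₀ + 4)) * (N : ℝ) ^ (1 - η) =
      C₁ * (N : ℝ) ^ (1 - η) + 4 * C0 * (N : ℝ) ^ (1 - η) + K1 * (N : ℝ) ^ (1 - η) +
        (N₀ : ℝ) * N₀ * (5 * N₀ + 4) * (N : ℝ) ^ (1 - η) := by ring
  rw [e2]
  linarith

/-- TTC from the hypotheses of COS -/
theorem TTC (hCOU : St_COU) (hRC : BX.St_RC) (hGS : BX.St_GS) : St_TTC :=
  Pool.Agent.W347.PL.TTC' (COS' hCOU hRC hGS)

end Pool.Agent.W462.PL
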