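import Pool.Agent.W23.PL.Defs
import Pool.Agent.H442R2.BX.Nc

set_option autoImplicit false

namespace Pool.Agent.W462.PL

open Finset
open Pool.Agent.H442R2
open Pool.Agent.H442R2.KF
open Pool.Agent.W23.PL
open Pool.Agent.H442R2.BX.TaskNC (Wt_pos Wt_le_one summable_ite card_roughs)

/-! ### the Gaussian weight -/

theorem exp_diff {x y M : ℝ} (hx : M ≤ x) (hy : M ≤ y) :
    |Real.exp (-x) - Real.exp (-y)| ≤ |x - y| * Real.exp (-M) := by
  have key : ∀ u v : ℝ, M ≤ u → u ≤ v → Real.exp (-u) - Real.exp (-v) ≤ (v - u) * Real.exp (-M) := by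
    intro u v hu huv
    have h1 : Real.exp (-v) = Real.exp (-u) * Real.exp (u - v) := by
      rw [← Real.exp_add]; congr 1; ring
    have h2 := Real.add_one_le_exp (u - v)
    have h3 := Real.exp_pos (-u)
    have h4 : Real.exp (-u) ≤ Real.exp (-M) := Real.exp_le_exp.2 (by linarith)
    have h5 : Real.exp (-u) - Real.exp (-v) ≤ (v - u) * Real.exp (-u) := by
      rw [h1]; nlinarith
    exact h5.trans (mul_le_mul_of_nonneg_left h4 (by linarith))
  rcases le_total x y with h | h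
  · have h1 : Real.exp (-y) ≤ Real.exp (-x) := Real.exp_le_exp.2 (by linarith)
    rw [abs_of_nonneg (by linarith), abs_sub_comm, abs_of_nonneg (by linarith : 0 ≤ y - x)]
    exact key x y hx h
  · have h1 : Real.exp (-x) ≤ Real.exp (-y) := Real.exp_le_exp.2 (by linarith)
    rw [abs_sub_comm, abs_of_nonneg (by linarith), abs_of_nonneg (by linarith : 0 ≤ x - y)]
    exact key y x hy h

theorem gauss_shift (t s : ℝ) (hs : |s| ≤ 1) :
    |Real.exp (-Real.pi * (t + s) ^ 2) - Real.exp (-Real.pi * t ^ 2)| ≤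
      3 * Real.pi * Real.exp Real.pi * |s| * Real.exp (-Real.pi * (t / 2) ^ 2) := by
  have hp := Real.pi_pos
  have hp3 := Real.pi_gt_three
  have hs2 : s ^ 2 ≤ 1 := by
    rw [← sq_abs]
    exact pow_le_one₀ (abs_nonneg s) hs
  have h1 := exp_diff (x := Real.pi * (t + s) ^ 2) (y := Real.pi * t ^ 2)
    (M := Real.pi * t ^ 2 / 2 - Real.pi) (by nlinarith [sq_nonneg (t + 2 * s)])
    (by nlinarith [sq_nonneg t, mul_nonneg hp.le (sq_nonneg t)])
  have e1 : -(Real.pi * (t + s) ^ 2) = -Real.pi * (t + s) ^ 2 := by ring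
  have e2 : -(Real.pi * t ^ 2) = -Real.pi * t ^ 2 := by ring
  rw [e1, e2] at h1
  refine h1.trans ?_
  have h2 : |Real.pi * (t + s) ^ 2 - Real.pi * t ^ 2| ≤ Real.pi * |s| * (2 * |t| + 1) := by
    have e3 : Real.pi * (t + s) ^ 2 - Real.pi * t ^ 2 = Real.pi * s * (2 * t + s) := by ring
    rw [e3, abs_mul, abs_mul, abs_of_pos hp]
    refine mul_le_mul_of_nonneg_left ?_ (by positivity)
    calc |2 * t + s| ≤ |2 * t| + |s| := abs_add_le _ _
      _ = 2 * |t| + |s| := by rw [abs_mul, abs_two]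
      _ ≤ _ := by linarith
  have h3 : Real.exp (-(Real.pi * t ^ 2 / 2 - Real.pi)) =
      Real.exp Real.pi * (Real.exp (-Real.pi * (t / 2) ^ 2) * Real.exp (-Real.pi * (t / 2) ^ 2)) := by
    rw [← Real.exp_add, ← Real.exp_add]; congr 1; ring
  have h4 : (2 * |t| + 1) * Real.exp (-Real.pi * (t / 2) ^ 2) ≤ 3 := by
    have h5 := Real.add_one_le_exp (Real.pi * (t / 2) ^ 2)
    have h6 : 2 * |t| + 1 ≤ 3 * Real.exp (Real.pi * (t / 2) ^ 2) := by
      have h7 : 3 * (t / 2) ^ 2 ≤ Real.pi * (t / 2) ^ 2 :=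
        mul_le_mul_of_nonneg_right hp3.le (sq_nonneg _)
      have h8 : 0 ≤ (|t| - 1) ^ 2 := sq_nonneg _
      have h9 : |t| ^ 2 = t ^ 2 := sq_abs t
      nlinarith
    calc (2 * |t| + 1) * Real.exp (-Real.pi * (t / 2) ^ 2)
        ≤ (3 * Real.exp (Real.pi * (t / 2) ^ 2)) * Real.exp (-Real.pi * (t / 2) ^ 2) :=
          mul_le_mul_of_nonneg_right h6 (Real.exp_pos _).le
      _ = 3 := by
          rw [mul_assoc, ← Real.exp_add]
          have : Real.pi * (t / 2) ^ 2 + -Real.pi * (t / 2) ^ 2 = 0 := by ring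
          rw [this, Real.exp_zero, mul_one]
  rw [h3]
  have hE := Real.exp_pos (-Real.pi * (t / 2) ^ 2)
  have hEp := Real.exp_pos Real.pi
  calc |Real.pi * (t + s) ^ 2 - Real.pi * t ^ 2| * (Real.exp Real.pi *
        (Real.exp (-Real.pi * (t / 2) ^ 2) * Real.exp (-Real.pi * (t / 2) ^ 2)))
      ≤ (Real.pi * |s| * (2 * |t| + 1)) * (Real.exp Real.pi *
        (Real.exp (-Real.pi * (t / 2) ^ 2) * Real.exp (-Real.pi * (t / 2) ^ 2))) :=
        mul_le_mul_of_nonneg_right h2 (by positivity)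
    _ = (Real.pi * Real.exp Real.pi * |s| * Real.exp (-Real.pi * (t / 2) ^ 2)) *
        ((2 * |t| + 1) * Real.exp (-Real.pi * (t / 2) ^ 2)) := by ring
    _ ≤ (Real.pi * Real.exp Real.pi * |s| * Real.exp (-Real.pi * (t / 2) ^ 2)) * 3 :=
        mul_le_mul_of_nonneg_left h4 (by positivity)
    _ = _ := by ring

theorem Wt_shift {N : ℕ} (hN : 1 ≤ N) (b m : ℤ) (hb : |(b : ℝ)| ≤ N) :
    |Wt N (m + b) - Wt N m| ≤ 3 * Real.pi * Real.exp Real.pi * (|(b : ℝ)| / N) * Wt (2 * N) m := by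
  have hNpos : (0 : ℝ) < N := by exact_mod_cast (by omega : 0 < N)
  have hs : |(b : ℝ) / N| ≤ 1 := by
    rw [abs_div, abs_of_pos hNpos, div_le_one hNpos]; exact hb
  have h := gauss_shift ((m : ℝ) / N) ((b : ℝ) / N) hs
  unfold Wt
  have e1 : ((m + b : ℤ) : ℝ) / N = (m : ℝ) / N + (b : ℝ) / N := by push_cast; ring
  have e2 : (m : ℝ) / ((2 * N : ℕ) : ℝ) = (m : ℝ) / N / 2 := by push_cast; field_simp
  have e3 : |(b : ℝ) / N| = |(b : ℝ)| / N := by rw [abs_div, abs_of_pos hNpos]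
  rw [e1, e2, ← e3]
  exact h

/-! ### counting divisors -/

theorem sum_le_rd {y : ℝ} {X D0 : ℕ} {c : ℕ → ℝ} (hc : BX.CofR y X c) (k : ℤ) :
    ∑ d ∈ Ioc D0 X, |c d| * (if (d : ℤ) ∣ k then (1 : ℝ) else 0) ≤ ((BX.rd y X k).card : ℝ) := by
  classical
  calc ∑ d ∈ Ioc D0 X, |c d| * (if (d : ℤ) ∣ k then (1 : ℝ) else 0)
      ≤ ∑ d ∈ Ioc D0 X, (if d ∈ BX.rd y X k then (1 : ℝ) else 0) := by
        refine sum_le_sum fun d hd => ?_
        by_cases h1 : (d : ℤ) ∣ k
        · rw [if_pos h1, mul_one]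
          by_cases h2 : c d = 0
          · rw [h2, abs_zero]; split_ifs <;> norm_num
          · have h3 := hc.supp d h2
            have h4 : d ∈ BX.rd y X k := by
              unfold BX.rd BX.roughs
              rw [mem_filter, mem_filter, mem_Icc]
              exact ⟨⟨⟨h3.2.1.le, h3.1⟩, h3.2⟩, h1⟩
            rw [if_pos h4]
            exact hc.bd d
        · rw [if_neg h1, mul_zero]; split_ifs <;> norm_num
    _ = (((Ioc D0 X).filter (fun d => d ∈ BX.rd y X k)).card : ℝ) := by rw [sum_boole]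
    _ ≤ _ := by
        have : (Ioc D0 X).filter (fun d => d ∈ BX.rd y X k) ⊆ BX.rd y X k := fun d hd =>
          (mem_filter.1 hd).2
        exact_mod_cast card_le_card this

theorem pow_quarter {t : ℝ} (ht1 : 1 ≤ t) : t ^ (1 / 4 : ℝ) * t ^ (1 / 4 : ℝ) ≤ t := by
  rw [← Real.rpow_add (by linarith)]
  calc t ^ (1 / 4 + 1 / 4 : ℝ) ≤ t ^ (1 : ℝ) :=
        Real.rpow_le_rpow_of_exponent_le ht1 (by norm_num)
    _ = t := Real.rpow_one _

theorem SEb_eq (N : ℕ) (b a a' : ℤ) (q d d' : ℕ) :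
    SEb N b a a' q d d' = ∑' m : ℤ, if ((q : ℤ) ∣ m ∧ (d : ℤ) ∣ m - (a - b) ∧
      (d' : ℤ) ∣ m - (a' - b)) then Wt N (m + b) else 0 := by
  unfold SEb
  rw [← (Equiv.addRight b).tsum_eq]
  refine tsum_congr fun m => ?_
  have e1 : (Equiv.addRight b) m - b = m := by simp
  have e2 : (Equiv.addRight b) m - a = m - (a - b) := by simp; ring
  have e3 : (Equiv.addRight b) m - a' = m - (a' - b) := by simp; ring
  rw [e1, e2, e3]
  rfl

theorem summable_shift (N : ℕ) (hN : 1 ≤ N) (b : ℤ) (p : ℤ → Prop) [DecidablePred p] :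
    Summable (fun m : ℤ => if p m then Wt N (m + b) else 0) := by
  have h1 : Summable (fun m : ℤ => Wt N (m + b)) :=
    ((Equiv.addRight b).summable_iff (f := fun n : ℤ => Wt N n)).2 (TaskS.summable_Wt N hN)
  refine Summable.of_nonneg_of_le (fun n => ?_) (fun n => ?_) h1
  · split_ifs
    · exact (Wt_pos N _).le
    · exact le_refl _
  · split_ifs
    · exact le_refl _
    · exact (Wt_pos N _).le

/-- the difference of the sums for the two weights -/
theorem diff_bound {N D0 X q : ℕ} (hN : 1 ≤ N) {y : ℝ} {c c' : ℕ → ℝ} (hc : BX.CofR y X c)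
    (hc' : BX.CofR y X c') (b a a' : ℤ) (hb : |(b : ℝ)| ≤ N) (haa : a ≠ a')
    (ha : |((a - b : ℤ) : ℝ)| ≤ N) (ha' : |((a' - b : ℤ) : ℝ)| ≤ N)
    {C0 : ℝ} (hC0 : 0 < C0) (hrc : ∀ (a n : ℤ), |(a : ℝ)| ≤ N → n ≠ a →
      ((BX.rd y X (n - a)).card : ℝ) ≤ C0 * (1 + |(n : ℝ)| / N) ^ (1 / 4 : ℝ))
    (hGS : BX.St_GS) :
    |∑ d ∈ Ioc D0 X, ∑ d' ∈ (Ioc D0 X).filter (fun d' => Nat.Coprime d d'), c d * c' d' *
      (SEb N b a a' q d d' - BX.SE N (a - b) (a' - b) q d d')| ≤
      4 * C0 * X + (3 * Real.pi * Real.exp Real.pi) * (4 * C0 ^ 2) * 20 * |(b : ℝ)| := by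
  classical
  have hNpos : (0 : ℝ) < N := by exact_mod_cast (by omega : 0 < N)
  set A := a - b with hA
  set A' := a' - b with hA'
  have hAA : A ≠ A' := by rw [hA, hA']; intro h; exact haa (by linarith)
  set I : ℕ → ℕ → ℤ → Prop := fun d d' m => (q : ℤ) ∣ m ∧ (d : ℤ) ∣ m - A ∧ (d' : ℤ) ∣ m - A'
    with hI
  set W : ℤ → ℝ := fun m => |Wt N (m + b) - Wt N m| with hW
  have hsumm : ∀ p : ℤ → Prop, ∀ _ : DecidablePred p, Summable (fun m : ℤ => if p m then W m else 0) := by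
    intro p _
    refine Summable.of_nonneg_of_le (fun m => ?_) (fun m => ?_)
      ((summable_shift N hN b (fun _ => True)).add (summable_ite N hN (fun _ => True)))
    · split_ifs
      · exact abs_nonneg _
      · exact le_refl _
    · simp only [if_true]
      have h1 := (Wt_pos N (m + b)).le
      have h2 := (Wt_pos N m).le
      split_ifs
      · show |Wt N (m + b) - Wt N m| ≤ _
        rw [abs_le]; constructor <;> linarith
      · linarith
  -- the double sum of differences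
  have h1 : ∀ d d' : ℕ, |SEb N b a a' q d d' - BX.SE N A A' q d d'| ≤
      ∑' m : ℤ, if I d d' m then W m else 0 := by
    intro d d'
    have e1 : SEb N b a a' q d d' - BX.SE N A A' q d d' =
        ∑' m : ℤ, ((if I d d' m then Wt N (m + b) else 0) - (if I d d' m then Wt N m else 0)) := by
      rw [Summable.tsum_sub (summable_shift N hN b _) (summable_ite N hN _), SEb_eq]
      rfl
    have hs1 : Summable (fun m : ℤ => ((if I d d' m then Wt N (m + b) else 0) -
        (if I d d' m then Wt N m else 0))) :=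
      (summable_shift N hN b _).sub (summable_ite N hN _)
    rw [e1]
    calc _ ≤ ∑' m : ℤ, |(if I d d' m then Wt N (m + b) else 0) -
          (if I d d' m then Wt N m else 0)| := by
          have := norm_tsum_le_tsum_norm (f := fun m : ℤ => ((if I d d' m then Wt N (m + b) else 0) -
            (if I d d' m then Wt N m else 0))) hs1.norm
          simpa only [Real.norm_eq_abs] using this
      _ = _ := by
          refine tsum_congr fun m => ?_
          by_cases h : I d d' m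
          · simp only [if_pos h, hW]
          · simp only [if_neg h, sub_zero, abs_zero]
  set G : ℤ → ℝ := fun m => ∑ d ∈ Ioc D0 X, ∑ d' ∈ (Ioc D0 X).filter (fun d' => Nat.Coprime d d'),
    |c d| * |c' d'| * (if I d d' m then W m else 0) with hG
  have h2 : |∑ d ∈ Ioc D0 X, ∑ d' ∈ (Ioc D0 X).filter (fun d' => Nat.Coprime d d'), c d * c' d' *
      (SEb N b a a' q d d' - BX.SE N A A' q d d')| ≤ ∑' m : ℤ, G m := by
    calc _ ≤ ∑ d ∈ Ioc D0 X, ∑ d' ∈ (Ioc D0 X).filter (fun d' => Nat.Coprime d d'),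
          |c d| * |c' d'| * (∑' m : ℤ, if I d d' m then W m else 0) := by
          refine (abs_sum_le_sum_abs _ _).trans (sum_le_sum fun d _ => ?_)
          refine (abs_sum_le_sum_abs _ _).trans (sum_le_sum fun d' _ => ?_)
          rw [abs_mul, abs_mul]
          exact mul_le_mul_of_nonneg_left (h1 d d') (by positivity)
      _ = ∑ d ∈ Ioc D0 X, ∑' m : ℤ, ∑ d' ∈ (Ioc D0 X).filter (fun d' => Nat.Coprime d d'),
          |c d| * |c' d'| * (if I d d' m then W m else 0) := by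
          refine sum_congr rfl fun d _ => ?_
          rw [Summable.tsum_finsetSum fun d' _ => (hsumm _ _).mul_left _]
          refine sum_congr rfl fun d' _ => ?_
          rw [tsum_mul_left]
      _ = _ := by
          rw [hG, Summable.tsum_finsetSum fun d _ => summable_sum fun d' _ =>
            (hsumm _ _).mul_left _]
  have hsG : Summable G := summable_sum fun d _ => summable_sum fun d' _ => (hsumm _ _).mul_left _
  have hWnn : ∀ m, 0 ≤ W m := fun m => abs_nonneg _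
  -- pointwise bound by the number of divisors
  have hGle : ∀ m, G m ≤ W m * (((BX.rd y X (m - A)).card : ℝ) * ((BX.rd y X (m - A')).card : ℝ)) := by
    intro m
    calc G m ≤ ∑ d ∈ Ioc D0 X, ∑ d' ∈ Ioc D0 X,
          W m * ((|c d| * (if (d : ℤ) ∣ m - A then (1 : ℝ) else 0)) *
            (|c' d'| * (if (d' : ℤ) ∣ m - A' then (1 : ℝ) else 0))) := by
          refine sum_le_sum fun d _ => ?_
          refine (sum_le_sum_of_subset_of_nonneg (filter_subset _ _) fun d' _ _ => ?_).trans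
            (sum_le_sum fun d' _ => ?_)
          · refine mul_nonneg (by positivity) ?_
            split_ifs
            · exact hWnn m
            · exact le_refl _
          · by_cases h : I d d' m
            · rw [if_pos h, if_pos h.2.1, if_pos h.2.2]
              exact le_of_eq (by ring)
            · rw [if_neg h, mul_zero]
              refine mul_nonneg (hWnn m) (mul_nonneg (mul_nonneg (abs_nonneg _) ?_)
                (mul_nonneg (abs_nonneg _) ?_)) <;> split_ifs <;> norm_num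
      _ = W m * ((∑ d ∈ Ioc D0 X, |c d| * (if (d : ℤ) ∣ m - A then (1 : ℝ) else 0)) *
          (∑ d' ∈ Ioc D0 X, |c' d'| * (if (d' : ℤ) ∣ m - A' then (1 : ℝ) else 0))) := by
          rw [sum_mul_sum, mul_sum]
          refine sum_congr rfl fun d _ => ?_
          rw [mul_sum]
      _ ≤ _ := by
          refine mul_le_mul_of_nonneg_left ?_ (hWnn m)
          refine mul_le_mul (sum_le_rd hc _) (sum_le_rd hc' _) ?_ (Nat.cast_nonneg _)
          refine sum_nonneg fun d _ => mul_nonneg (abs_nonneg _) ?_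
          split_ifs <;> norm_num
  have hr1 : ∀ b : ℤ, |(b:ℝ)| ≤ N → (1 + |(b:ℝ)| / N) ^ (1 / 4 : ℝ) ≤ 2 := by
    intro b hb
    have h1 : 1 + |(b:ℝ)| / N ≤ 2 := by
      have : |(b:ℝ)| / N ≤ 1 := by rw [div_le_one hNpos]; exact hb
      linarith
    have h2 : (1:ℝ) ≤ 1 + |(b:ℝ)| / N := by
      have : 0 ≤ |(b:ℝ)| / N := by positivity
      linarith
    calc (1 + |(b:ℝ)| / N) ^ (1 / 4 : ℝ) ≤ (1 + |(b:ℝ)| / N) ^ (1 : ℝ) :=
          Real.rpow_le_rpow_of_exponent_le h2 (by norm_num)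
      _ = 1 + |(b:ℝ)| / N := Real.rpow_one _
      _ ≤ 2 := h1
  have hX' : ∀ m : ℤ, ((BX.rd y X m).card : ℝ) ≤ X := by
    intro m
    have : (BX.rd y X m).card ≤ X := (card_filter_le _ _).trans (card_roughs y X)
    exact_mod_cast this
  have hW1 : ∀ m, W m ≤ 1 := by
    intro m
    have h1 := Wt_pos N (m + b)
    have h2 := Wt_pos N m
    have h3 := Wt_le_one N (m + b)
    have h4 := Wt_le_one N m
    show |Wt N (m + b) - Wt N m| ≤ 1
    rw [abs_le]; constructor <;> linarith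
  set C2 : ℝ := 3 * Real.pi * Real.exp Real.pi with hC2
  have hC20 : 0 < C2 := by have := Real.pi_pos; positivity
  have hpt : ∀ m, G m ≤ (if m = A then 2 * C0 * X else 0) + (if m = A' then 2 * C0 * X else 0) +
      C2 * (4 * C0 ^ 2) * (|(b : ℝ)| / N) * Wt (4 * N) m := by
    intro m
    have h0 := hGle m
    have h4nn : 0 ≤ C2 * (4 * C0 ^ 2) * (|(b : ℝ)| / N) * Wt (4 * N) m := by
      have := (Wt_pos (4 * N) m).le
      positivity
    by_cases hmA : m = A
    · have h3 : ((BX.rd y X (m - A')).card : ℝ) ≤ 2 * C0 := by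
        have h5 := hrc A' m ha' (by rw [hmA]; exact hAA)
        have h6 := hr1 m (by rw [hmA]; exact ha)
        nlinarith
      have h7 : W m * (((BX.rd y X (m - A)).card : ℝ) * ((BX.rd y X (m - A')).card : ℝ)) ≤
          1 * ((X : ℝ) * (2 * C0)) :=
        mul_le_mul (hW1 m) (mul_le_mul (hX' _) h3 (Nat.cast_nonneg _) (Nat.cast_nonneg _))
          (mul_nonneg (Nat.cast_nonneg _) (Nat.cast_nonneg _)) zero_le_one
      rw [if_pos hmA]
      have h8 : 0 ≤ (if m = A' then 2 * C0 * (X:ℝ) else 0) := by split_ifs <;> positivity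
      linarith
    by_cases hmA' : m = A'
    · have h3 : ((BX.rd y X (m - A)).card : ℝ) ≤ 2 * C0 := by
        have h5 := hrc A m ha hmA
        have h6 := hr1 m (by rw [hmA']; exact ha')
        nlinarith
      have h7 : W m * (((BX.rd y X (m - A)).card : ℝ) * ((BX.rd y X (m - A')).card : ℝ)) ≤
          1 * ((2 * C0) * (X : ℝ)) :=
        mul_le_mul (hW1 m) (mul_le_mul h3 (hX' _) (Nat.cast_nonneg _) (by positivity))
          (mul_nonneg (Nat.cast_nonneg _) (Nat.cast_nonneg _)) zero_le_one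
      rw [if_neg hmA, if_pos hmA']
      linarith
    rw [if_neg hmA, if_neg hmA', add_zero, zero_add]
    have h5 := hrc A m ha hmA
    have h6 := hrc A' m ha' hmA'
    set t := 1 + |(m:ℝ)| / N with ht
    have ht1 : 1 ≤ t := by
      have : 0 ≤ |(m:ℝ)| / N := by positivity
      linarith
    have h7 := pow_quarter ht1
    have h8 := Wt_shift hN b m hb
    have h9 : Wt (2 * N) m * t ≤ 2 * (2 * Wt (4 * N) m) := by
      have g1 := (hGS (2 * N) (by omega)).1 m
      have e4 : 2 * (2 * N) = 4 * N := by ring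
      rw [e4] at g1
      have g2 : t ≤ 2 * (1 + |(m:ℝ)| / ((2 * N : ℕ) : ℝ)) := by
        rw [ht]
        push_cast
        have : |(m:ℝ)| / N = 2 * (|(m:ℝ)| / (2 * N)) := by field_simp
        rw [this]
        have : 0 ≤ |(m:ℝ)| / (2 * N) := by positivity
        linarith
      have g3 := mul_le_mul_of_nonneg_left g2 (Wt_pos (2 * N) m).le
      linarith
    have hb0 : 0 ≤ |(b : ℝ)| / N := by positivity
    calc G m ≤ W m * (((BX.rd y X (m - A)).card : ℝ) * ((BX.rd y X (m - A')).card : ℝ)) := h0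
      _ ≤ (C2 * (|(b : ℝ)| / N) * Wt (2 * N) m) *
          ((C0 * t ^ (1 / 4 : ℝ)) * (C0 * t ^ (1 / 4 : ℝ))) := by
          refine mul_le_mul h8 (mul_le_mul h5 h6 (Nat.cast_nonneg _) ?_)
            (mul_nonneg (Nat.cast_nonneg _) (Nat.cast_nonneg _)) ?_
          · exact mul_nonneg hC0.le (Real.rpow_nonneg (by linarith) _)
          · exact mul_nonneg (mul_nonneg hC20.le hb0) (Wt_pos _ _).le
      _ = C2 * (|(b : ℝ)| / N) * C0 ^ 2 * (Wt (2 * N) m * (t ^ (1 / 4 : ℝ) * t ^ (1 / 4 : ℝ))) := by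
          ring
      _ ≤ C2 * (|(b : ℝ)| / N) * C0 ^ 2 * (Wt (2 * N) m * t) := by
          refine mul_le_mul_of_nonneg_left ?_ (by positivity)
          exact mul_le_mul_of_nonneg_left h7 (Wt_pos _ _).le
      _ ≤ C2 * (|(b : ℝ)| / N) * C0 ^ 2 * (2 * (2 * Wt (4 * N) m)) :=
          mul_le_mul_of_nonneg_left h9 (by positivity)
      _ = _ := by ring
  -- summation
  have hs1 : ∀ (b : ℤ) (v : ℝ), Summable (fun n : ℤ => if n = b then v else 0) := by
    intro b v
    refine summable_of_ne_finset_zero (s := {b}) fun n hn => ?_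
    rw [mem_singleton] at hn
    exact if_neg hn
  have hs4 : Summable (fun m : ℤ => Wt (4 * N) m) := TaskS.summable_Wt (4 * N) (by omega)
  have htot := Summable.tsum_le_tsum hpt hsG (((hs1 A (2 * C0 * X)).add (hs1 A' (2 * C0 * X))).add
    (hs4.mul_left _))
  refine h2.trans (htot.trans ?_)
  rw [Summable.tsum_add ((hs1 A (2 * C0 * X)).add (hs1 A' (2 * C0 * X))) (hs4.mul_left _),
    Summable.tsum_add (hs1 A (2 * C0 * X)) (hs1 A' (2 * C0 * X)), tsum_ite_eq, tsum_ite_eq,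
    tsum_mul_left]
  have h3 : ∑' m : ℤ, Wt (4 * N) m ≤ 20 * N := by
    have g1 := (hGS (4 * N) (by omega)).2 1 0 le_rfl
    have g2 : (fun n : ℤ => if ((1 : ℕ) : ℤ) ∣ n - 0 then Wt (4 * N) n else 0) =
        fun n : ℤ => Wt (4 * N) n := by
      funext n
      rw [if_pos]
      simp
    rw [g2] at g1
    refine g1.trans ?_
    push_cast
    have : (1 : ℝ) ≤ N := by exact_mod_cast hN
    rw [div_one]
    linarith
  have h4 : C2 * (4 * C0 ^ 2) * (|(b : ℝ)| / N) * ∑' m : ℤ, Wt (4 * N) m ≤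
      C2 * (4 * C0 ^ 2) * (|(b : ℝ)| / N) * (20 * N) :=
    mul_le_mul_of_nonneg_left h3 (by positivity)
  have h5 : C2 * (4 * C0 ^ 2) * (|(b : ℝ)| / N) * (20 * N) =
      C2 * (4 * C0 ^ 2) * 20 * |(b : ℝ)| := by field_simp
  linarith

/-- shifting the class modulo `q` -/
theorem COS (hCOU : St_COU) (hRC : BX.St_RC) (hGS : BX.St_GS) : St_COS := by
  intro θ δ hθ hθ1 hδ
  obtain ⟨ε₁, η₁, C₁, hε₁, hη₁, hC₁, hcou⟩ := hCOU θ δ hθ hθ1 hδ
  refine ⟨min ε₁ (1 / 4), lt_min hε₁ (by norm_num), ?_⟩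
  intro ε hε
  obtain ⟨N₀, C0, hC0, hrc⟩ := hRC ε hε
  set K1 : ℝ := (3 * Real.pi * Real.exp Real.pi) * (4 * C0 ^ 2) * 20 with hK1
  have hK10 : 0 < K1 := by have := Real.pi_pos; positivity
  set η : ℝ := min η₁ (min (1 - θ) (3 / 4)) with hη
  have hη0 : 0 < η := lt_min hη₁ (lt_min (by linarith) (by norm_num))
  have hη1 : η ≤ η₁ := min_le_left _ _
  have hη2 : η ≤ 1 - θ := (min_le_right _ _).trans (min_le_left _ _)
  have hη3 : η ≤ 3 / 4 := (min_le_right _ _).trans (min_le_right _ _)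
  refine ⟨η, C₁ + 4 * C0 + K1 + N₀ * N₀ * (5 * N₀ + 4), hη0, by positivity, ?_⟩
  intro N q D0 X hN hq hqo hqs hqN hXN hD0 hXD b a a' hb ha ha' haa c c' hc hc' hr hr' hFc
  have hN1 : 1 ≤ N := by omega
  have hNpos : (0 : ℝ) < N := by exact_mod_cast (by omega : 0 < N)
  have hN1r : (1 : ℝ) ≤ N := by exact_mod_cast hN1
  have hmono : ∀ {u v : ℝ}, u ≤ v → (N : ℝ) ^ u ≤ (N : ℝ) ^ v := fun h =>
    Real.rpow_le_rpow_of_exponent_le hN1r h
  have hPpos : 0 < (N : ℝ) ^ (1 - η) := Real.rpow_pos_of_pos hNpos _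
  have hXP : (X : ℝ) ≤ (N : ℝ) ^ (1 - η) := hXN.trans (hmono (by linarith))
  have hbq : |(b : ℝ)| ≤ (N : ℝ) ^ (1 / 4 : ℝ) :=
    hb.trans (hqN.trans (hmono (min_le_right _ _)))
  have hbP : |(b : ℝ)| ≤ (N : ℝ) ^ (1 - η) := hbq.trans (hmono (by linarith))
  have hbN : |(b : ℝ)| ≤ N := by
    refine hbq.trans ?_
    calc (N : ℝ) ^ (1 / 4 : ℝ) ≤ (N : ℝ) ^ (1 : ℝ) := hmono (by norm_num)
      _ = N := Real.rpow_one _
  by_cases hsmall : N < N₀
  · -- small N
    have hNN : (N : ℝ) ≤ N₀ := by exact_mod_cast hsmall.le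
    have h1 : ∀ d d' : ℕ, 1 ≤ d → 1 ≤ d' → |SEb N b a a' q d d' - N / (q * d * d')| ≤
        5 * (N : ℝ) + 4 := by
      intro d d' hd hd'
      have h2 : 0 ≤ SEb N b a a' q d d' := by
        unfold SEb
        refine tsum_nonneg fun n => ?_
        split_ifs
        · exact (Wt_pos N n).le
        · exact le_refl _
      have h3 : SEb N b a a' q d d' ≤ 4 * ((N : ℝ) + 1) := by
        have g1 := (hGS N hN1).2 1 0 le_rfl
        simp only [Nat.cast_one, div_one] at g1
        refine le_trans ?_ g1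
        unfold SEb
        refine Summable.tsum_le_tsum (fun n => ?_) (summable_ite N hN1 _) (summable_ite N hN1 _)
        rw [if_pos (one_dvd (n - 0))]
        split_ifs
        · exact le_refl _
        · exact (Wt_pos N n).le
      have h4 : 0 ≤ (N : ℝ) / (q * d * d') := by positivity
      have h5 : (N : ℝ) / (q * d * d') ≤ N := by
        apply div_le_self hNpos.le
        have e1 : (1 : ℝ) ≤ q := by exact_mod_cast hq
        have e2 : (1 : ℝ) ≤ d := by exact_mod_cast hd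
        have e3 : (1 : ℝ) ≤ d' := by exact_mod_cast hd'
        exact one_le_mul_of_one_le_of_one_le (one_le_mul_of_one_le_of_one_le e1 e2) e3
      rw [abs_le]; constructor <;> linarith
    have hXN' : (X : ℝ) ≤ N₀ := by
      refine hXN.trans ?_
      calc (N : ℝ) ^ θ ≤ (N : ℝ) ^ (1 : ℝ) := hmono (by linarith)
        _ = N := Real.rpow_one _
        _ ≤ N₀ := hNN
    have hcard : ((Ioc D0 X).card : ℝ) ≤ X := by
      rw [Nat.card_Ioc]
      exact_mod_cast Nat.sub_le _ _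
    have h2 : |∑ d ∈ Ioc D0 X, ∑ d' ∈ (Ioc D0 X).filter (fun d' => Nat.Coprime d d'), c d * c' d' *
        (SEb N b a a' q d d' - N / (q * d * d'))| ≤ N₀ * N₀ * (5 * N₀ + 4) := by
      calc _ ≤ ∑ d ∈ Ioc D0 X, ∑ d' ∈ Ioc D0 X, (5 * (N : ℝ) + 4) := by
            refine (abs_sum_le_sum_abs _ _).trans (sum_le_sum fun d hd => ?_)
            refine (abs_sum_le_sum_abs _ _).trans ?_
            refine le_trans (sum_le_sum (g := fun _ => 5 * (N : ℝ) + 4) fun d' hd' => ?_)
              (sum_le_sum_of_subset_of_nonneg (filter_subset _ _) fun _ _ _ => by positivity)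
            have hd1 : 1 ≤ d := by have := (mem_Ioc.1 hd).1; omega
            have hd1' : 1 ≤ d' := by have := (mem_Ioc.1 (mem_filter.1 hd').1).1; omega
            rw [abs_mul, abs_mul]
            calc |c d| * |c' d'| * |SEb N b a a' q d d' - N / (q * d * d')|
                ≤ 1 * 1 * (5 * (N : ℝ) + 4) :=
                  mul_le_mul (mul_le_mul (hc.bd d) (hc'.bd d') (abs_nonneg _) zero_le_one)
                    (h1 d d' hd1 hd1') (abs_nonneg _) (by norm_num)
              _ = 5 * (N : ℝ) + 4 := by ring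
        _ = ((Ioc D0 X).card : ℝ) * (((Ioc D0 X).card : ℝ) * (5 * (N : ℝ) + 4)) := by
            rw [sum_const, sum_const, nsmul_eq_mul, nsmul_eq_mul]
        _ ≤ (N₀ : ℝ) * ((N₀ : ℝ) * (5 * (N₀ : ℝ) + 4)) := by
            have h3 := hcard.trans hXN'
            refine mul_le_mul h3 (mul_le_mul h3 (by linarith) (by positivity) (Nat.cast_nonneg _))
              (by positivity) (Nat.cast_nonneg _)
        _ = _ := by ring
    refine h2.trans ?_
    have h3 : (1 : ℝ) ≤ (N : ℝ) ^ (1 - η) := Real.one_le_rpow hN1r (by linarith)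
    have h4 : (N₀ : ℝ) * N₀ * (5 * N₀ + 4) ≤ C₁ + 4 * C0 + K1 + N₀ * N₀ * (5 * N₀ + 4) := by
      linarith
    have h5 : 0 ≤ C₁ + 4 * C0 + K1 + (N₀ : ℝ) * N₀ * (5 * N₀ + 4) := by positivity
    calc (N₀ : ℝ) * N₀ * (5 * N₀ + 4) ≤ (C₁ + 4 * C0 + K1 + N₀ * N₀ * (5 * N₀ + 4)) * 1 := by
          rw [mul_one]; exact h4
      _ ≤ _ := mul_le_mul_of_nonneg_left h3 h5
  push Not at hsmall
  have hhalf : (N : ℝ) ^ (1 / 4 : ℝ) ≤ (N : ℝ) ^ (1 / 2 : ℝ) := hmono (by norm_num)
  have hA : |((a - b : ℤ) : ℝ)| ≤ N := by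
    push_cast
    have := abs_sub (a : ℝ) (b : ℝ)
    linarith
  have hA' : |((a' - b : ℤ) : ℝ)| ≤ N := by
    push_cast
    have := abs_sub (a' : ℝ) (b : ℝ)
    linarith
  have hAA : a - b ≠ a' - b := fun h => haa (by linarith)
  have h1 := hcou N q D0 X hN hq hqo hqs (hqN.trans (hmono (min_le_left _ _))) hXN hD0
    (hXD.trans (mul_le_mul_of_nonneg_right (hmono (min_le_left _ _)) (Nat.cast_nonneg _)))
    (a - b) (a' - b) hA hA' hAA c c' hc hc' hFc
  have h2 := diff_bound (D0 := D0) (q := q) hN1 hr hr' b a a' hbN haa hA hA' hC0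
    (fun a n h h' => hrc N X hsmall a n h h') hGS
  rw [← hK1] at h2
  have e1 : ∑ d ∈ Ioc D0 X, ∑ d' ∈ (Ioc D0 X).filter (fun d' => Nat.Coprime d d'), c d * c' d' *
      (SEb N b a a' q d d' - N / (q * d * d')) =
      ∑ d ∈ Ioc D0 X, ∑ d' ∈ (Ioc D0 X).filter (fun d' => Nat.Coprime d d'), c d * c' d' *
        (SEb N b a a' q d d' - BX.SE N (a - b) (a' - b) q d d') +
      ∑ d ∈ Ioc D0 X, ∑ d' ∈ (Ioc D0 X).filter (fun d' => Nat.Coprime d d'), c d * c' d' *
        (BX.SE N (a - b) (a' - b) q d d' - N / (q * d * d')) := by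
    rw [← sum_add_distrib]
    refine sum_congr rfl fun d _ => ?_
    rw [← sum_add_distrib]
    refine sum_congr rfl fun d' _ => ?_
    ring
  rw [e1]
  refine (abs_add_le _ _).trans ?_
  have h3 : (N : ℝ) ^ (1 - η₁) ≤ (N : ℝ) ^ (1 - η) := hmono (by linarith)
  have h4 : 4 * C0 * X ≤ 4 * C0 * (N : ℝ) ^ (1 - η) :=
    mul_le_mul_of_nonneg_left hXP (by positivity)
  have h5 : K1 * |(b : ℝ)| ≤ K1 * (N : ℝ) ^ (1 - η) := mul_le_mul_of_nonneg_left hbP hK10.le
  have h6 : C₁ * (N : ℝ) ^ (1 - η₁) ≤ C₁ * (N : ℝ) ^ (1 - η) :=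
    mul_le_mul_of_nonneg_left h3 hC₁.le
  have h7 : 0 ≤ (N₀ : ℝ) * N₀ * (5 * N₀ + 4) * (N : ℝ) ^ (1 - η) := by positivity
  have e2 : (C₁ + 4 * C0 + K1 + N₀ * N₀ * (5 * N₀ + 4)) * (N : ℝ) ^ (1 - η) =
      C₁ * (N : ℝ) ^ (1 - η) + 4 * C0 * (N : ℝ) ^ (1 - η) + K1 * (N : ℝ) ^ (1 - η) +
        (N₀ : ℝ) * N₀ * (5 * N₀ + 4) * (N : ℝ) ^ (1 - η) := by ring
  rw [e2]
  linarith

end Pool.Agent.W462.PL
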